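import Pool.Agent.Helper92.GB.Extent
import Pool.Agent.Helper11.GB.A6

/-!
# MP_02f2ca_gt : module A16, the main level
-/

open Set MeasureTheory Filter Topology

namespace GB

theorem Per.int {A : Set ℝ} (h : Per A) (x : ℝ) (u : ℤ) : x + u ∈ A ↔ x ∈ A := by
  induction u using Int.induction_on with
  | zero => simp
  | succ n ih =>
    have := h (x + n)
    rw [← ih]
    push_cast at this ⊢
    rw [← this, add_assoc]
  | pred n ih =>
    have := h (x + (-n - 1 : ℤ))
    rw [← ih, ← this]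
    push_cast
    ring_nf

theorem cob_int {a₁ : ℝ} {G : Set ℝ} (h : Per G) (x : ℝ) (u : ℤ) :
    cob a₁ G (x + u) = cob a₁ G x := by
  have h1 := h.int x u
  have h2 := h.int (x + a₁) u
  have h3 : x + u + a₁ = x + a₁ + u := by ring
  unfold cob
  rw [h3]
  by_cases h4 : x ∈ G <;> by_cases h5 : x + a₁ ∈ G <;>
    simp only [indicator, h1, h2, h4, h5, if_true, if_false]

/-- Representatives of the classes of a finite set. -/
theorem exists_reps {α : Type*} [DecidableEq α] (r : α → α → Prop) (hr : ∀ x, r x x)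
    (hs : ∀ x y, r x y → r y x) (I : Finset α) :
    ∃ R₀ ⊆ I, (∀ x ∈ I, ∃ y ∈ R₀, r x y) ∧ ∀ x ∈ R₀, ∀ y ∈ R₀, x ≠ y → ¬ r x y := by
  induction I using Finset.induction_on with
  | empty => exact ⟨∅, by simp, by simp, by simp⟩
  | insert a I ha ih =>
    obtain ⟨R₀, h1, h2, h3⟩ := ih
    by_cases h : ∃ y ∈ R₀, r a y
    · refine ⟨R₀, h1.trans (Finset.subset_insert _ _), ?_, h3⟩
      intro x hx
      rcases Finset.mem_insert.1 hx with rfl | hx
      · exact h
      · exact h2 x hx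
    · push Not at h
      refine ⟨insert a R₀, Finset.insert_subset_insert _ h1, ?_, ?_⟩
      · intro x hx
        rcases Finset.mem_insert.1 hx with rfl | hx
        · exact ⟨x, Finset.mem_insert_self _ _, hr x⟩
        · obtain ⟨y, hy, hxy⟩ := h2 x hx
          exact ⟨y, Finset.mem_insert_of_mem hy, hxy⟩
      · intro x hx y hy hxy
        rcases Finset.mem_insert.1 hx with hx' | hx'
        · rcases Finset.mem_insert.1 hy with hy' | hy'
          · exact absurd (hx'.trans hy'.symm) hxy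
          · rw [hx']; exact h y hy'
        · rcases Finset.mem_insert.1 hy with hy' | hy'
          · rw [hy']; exact fun h4 => h x hx' (hs _ _ h4)
          · exact h3 x hx' y hy' hxy

/-- One segment of a configuration catches exactly one sink. -/
theorem seg_sum {a₁ a₂ : ℝ} {thr2 : ℝ → ℕ} {κ : ℕ → ℕ → ℕ} {e : ℕ → ℝ} {μ₀ : ℝ} {i : ℕ} {ε : ℝ}
    {θ : ℕ} {X : Lev} (hX : Good a₁ a₂ thr2 κ e μ₀ i ε θ X) {z : ℝ} (hz : z ∈ X.Z) {r : ℤ}
    (hr : |r| ≤ X.K) (F : ℕ → ℝ) (A : ℕ → ℤ) (u : ℤ)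
    (hF : ∀ l, F l = z + Lf a₁ a₂ (A l, r) + u) (hK : ∀ l < X.P, |A l| ≤ X.K)
    (hA : ∀ a : ℤ, 0 ≤ a → a < X.T → ∃ l < X.P, A l = a)
    (hinj : ∀ l l', A l = A l' → l = l') :
    ∑ l ∈ Finset.range X.P, cob a₁ X.G (F l) = -1 := by
  obtain ⟨a₀, h0, h1, h2⟩ := hX.pattern z hz r hr
  obtain ⟨l₀, hl₀, hAl⟩ := hA a₀ h0 h1
  have h3 : ∀ l ∈ Finset.range X.P, cob a₁ X.G (F l) = if l = l₀ then -1 else 0 := by
    intro l hl
    rw [hF, cob_int hX.Gper, h2 _ (hK l (Finset.mem_range.1 hl))]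
    by_cases h4 : l = l₀
    · rw [if_pos h4, h4, if_pos hAl]
    · rw [if_neg h4, if_neg]
      intro h5
      exact h4 (hinj _ _ (h5.trans hAl.symm))
  rw [Finset.sum_congr rfl h3, Finset.sum_ite_eq', if_pos (Finset.mem_range.2 hl₀)]

/-- Main level: on a nonempty open set of base points every `α`-segment of the configuration
catches exactly one sink and no source, and the configuration avoids the higher levels.
(The hypothesis `avoid_family` is the statement of module A6.) -/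
theorem main_level_of
    (avoid_family : ∀ (n : ℕ) (N : ℝ), 0 < N → ∀ (s q : Fin n → ℝ), (∀ i, s i ≠ 0) →
      ∀ (t₀ lam : ℝ), 0 < lam → (∀ i, N * |s i| * lam ≤ 1) →
      ∃ t₁, t₀ ≤ t₁ ∧ t₁ + lam / 4 ^ n ≤ t₀ + lam ∧
        ∀ i, ∀ t ∈ Icc t₁ (t₁ + lam / 4 ^ n), ∀ u : ℤ,
          N * |s i| * lam / (8 * 4 ^ n) ≤ |N * (s i * t + q i) - u|)
    (a₁ a₂ : ℝ) (hα : QIndep a₁ a₂) (thr2 : ℝ → ℕ) (κ : ℕ → ℕ → ℕ) (e : ℕ → ℝ)
    (he1 : ∀ n, e n ≤ 1 / (8 * 4 ^ n)) (hκ : ∀ i P, 2 * (2 * P + 1) ^ (i + 1) * (P + 1) ≤ κ i P)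
    (μ₀ : ℝ) (m : ℕ) (b : Fin m → ℝ) :
    ∃ M : ℕ, 1 ≤ M ∧ ∀ (i : ℕ), m ≤ i → ∀ (ε : ℝ) (θ : ℕ) (X : Lev),
      Good a₁ a₂ thr2 κ e μ₀ i ε θ X →
      ∃ U : Set ℝ, IsOpen U ∧ U.Nonempty ∧ ∀ x ∈ U, ∀ τ ∈ ({1, -1} : Finset ℤ),
        ∀ n : Fin m → ℤ, (∀ j, |n j| ≤ (X.P / M : ℕ)) → ∀ k : ℤ, |k| ≤ (X.P / M : ℕ) →
        (∑ l ∈ Finset.range X.P,
          cob a₁ X.G ((τ : ℝ) * (x + l * a₁) + (∑ j, (n j : ℝ) * b j + k * a₁))) = -1 ∧
        ∀ l < X.P, ∀ u : ℤ,
          (τ : ℝ) * (x + l * a₁) + (∑ j, (n j : ℝ) * b j + k * a₁) + u ∉ Ioo 0 X.ε' := by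
  classical
  obtain ⟨C, hC⟩ := class_extent a₁ a₂ hα m b
  refine ⟨16 * (C + 1), by omega, ?_⟩
  intro i hmi ε θ X hX
  obtain ⟨p, hp⟩ := hX.P8
  set R : ℕ := X.P / (16 * (C + 1)) with hR
  have hRP : R ≤ X.P := Nat.div_le_self _ _
  have hRp : 2 * (C + 1) * R ≤ p := by
    have h1 : 16 * (C + 1) * R ≤ X.P := Nat.mul_div_le _ _
    rw [hp] at h1
    nlinarith
  have hPT := hX.PT
  have hp1 : X.T + 1 ≤ 2 * p := by omega
  have hKP := hX.KP
  have hK : (16 * p : ℤ) ≤ X.K := by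
    have : 2 * (8 * p) ≤ X.K := by rw [← hp]; exact hKP
    push_cast [← Nat.cast_le (α := ℤ)] at this ⊢
    linarith
  -- the numbers `∑ n j b j + k a₁`
  set fb : (Fin m → ℤ) × ℤ → ℝ := fun nk => ∑ j, (nk.1 j : ℝ) * b j + nk.2 * a₁ with hfb
  set I : Finset ((Fin m → ℤ) × ℤ) :=
    (Fintype.piFinset (fun _ : Fin m => Finset.Icc (-R : ℤ) R)) ×ˢ Finset.Icc (-R : ℤ) R with hI
  set B : Finset ℝ := I.image fb with hB
  have hBcard : B.card ≤ (2 * R + 1) ^ (m + 1) := by
    refine Finset.card_image_le.trans ?_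
    rw [hI, Finset.card_product, Fintype.card_piFinset_const, Int.card_Icc]
    have : ((R : ℤ) + 1 - -R).toNat = 2 * R + 1 := by omega
    rw [this, pow_succ]
  have hBle : B.card ≤ (2 * X.P + 1) ^ (i + 1) := by
    refine hBcard.trans ?_
    calc (2 * R + 1) ^ (m + 1) ≤ (2 * X.P + 1) ^ (m + 1) := Nat.pow_le_pow_left (by omega) _
      _ ≤ (2 * X.P + 1) ^ (i + 1) := Nat.pow_le_pow_right (by omega) (by omega)
  have hKbig : 2 * B.card * (X.P + 1) ≤ X.K := by
    refine le_trans ?_ ((hκ i X.P).trans hX.Kκ)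
    gcongr
  -- classes
  set r : ℝ → ℝ → Prop := fun β β' => ∃ (v : ℤ × ℤ) (u : ℤ), β - β' = Lf a₁ a₂ v + u with hr
  obtain ⟨R₀, hR₀B, hcov, hind⟩ := exists_reps r
    (fun x => ⟨0, 0, by simp [Lf]⟩)
    (fun x y h => by
      obtain ⟨v, u, h⟩ := h
      refine ⟨-v, -u, ?_⟩
      simp only [Lf, Prod.fst_neg, Prod.snd_neg] at h ⊢
      push_cast
      linarith) B
  have hext : ∀ β ∈ B, ∀ β' ∈ B, ∀ (v : ℤ × ℤ) (u : ℤ), β - β' = Lf a₁ a₂ v + u →
      |v.1| ≤ p ∧ |v.2| ≤ p := by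
    intro β hβ β' hβ' v u hv
    obtain ⟨⟨n, k⟩, hn, rfl⟩ := Finset.mem_image.1 hβ
    obtain ⟨⟨n', k'⟩, hn', rfl⟩ := Finset.mem_image.1 hβ'
    rw [hI, Finset.mem_product, Fintype.mem_piFinset] at hn hn'
    obtain ⟨hn, hk⟩ := hn
    obtain ⟨hn', hk'⟩ := hn'
    simp only [Finset.mem_Icc] at hn hk hn' hk'
    have h1 := hC (fun j => n j - n' j) (k - k') v u (2 * R)
      (fun j => by
        have := hn j
        have := hn' j
        rw [abs_le]
        push_cast
        constructor <;> omega)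
      (by
        rw [abs_le]
        push_cast
        constructor <;> omega)
      (by
        rw [← hv]
        simp only [hfb]
        push_cast
        simp only [sub_mul, Finset.sum_sub_distrib]
        ring)
    have h2 : ((C : ℤ) * ((2 * R : ℕ) : ℤ)) ≤ p := by
      have h3 : C * (2 * R) ≤ p := by nlinarith
      exact_mod_cast h3
    exact ⟨h1.1.trans h2, h1.2.trans h2⟩
  -- avoidance of the higher levels
  set Pt := {β // β ∈ B} × Fin X.P × Bool with hPt
  set nn : ℕ := Fintype.card Pt with hnn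
  have hnnK : nn ≤ X.K := by
    have h1 : nn = B.card * (X.P * 2) := by
      simp only [hnn, hPt, Fintype.card_prod, Fintype.card_coe, Fintype.card_fin,
        Fintype.card_bool]
    rw [h1]
    refine le_trans ?_ hKbig
    nlinarith
  set E := Fintype.equivFin Pt with hE
  set sg : Bool → ℝ := fun c => if c then 1 else -1 with hsg
  have hsg_abs : ∀ c, |sg c| = 1 := by
    intro c
    cases c <;> simp [hsg]
  obtain ⟨t₁, -, -, havoid⟩ := avoid_family nn 1 one_pos
    (fun l => sg (E.symm l).2.2)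
    (fun l => (E.symm l).1.1 + sg (E.symm l).2.2 * ((E.symm l).2.1 : ℕ) * a₁)
    (fun l h => by
      have := hsg_abs (E.symm l).2.2
      rw [h] at this
      simp at this)
    0 1 one_pos (fun l => by rw [hsg_abs]; norm_num)
  have hav : ∀ β ∈ B, ∀ l < X.P, ∀ c : Bool, ∀ t ∈ Icc t₁ (t₁ + 1 / 4 ^ nn), ∀ u : ℤ,
      1 / (8 * 4 ^ nn) ≤ |sg c * t + (β + sg c * l * a₁) - u| := by
    intro β hβ l hl c t ht u
    have h1 := havoid (E (⟨β, hβ⟩, ⟨l, hl⟩, c)) t ht u
    simp only [Equiv.symm_apply_apply, hsg_abs, one_mul] at h1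
    exact h1
  have heK : e X.K ≤ 1 / (8 * 4 ^ nn) := by
    refine (he1 X.K).trans ?_
    apply one_div_le_one_div_of_le (by positivity)
    have : (4 : ℝ) ^ nn ≤ 4 ^ X.K := pow_le_pow_right₀ (by norm_num) hnnK
    linarith
  have heK' : e X.K ≤ 1 / 4 ^ nn := by
    refine heK.trans ?_
    apply one_div_le_one_div_of_le (by positivity)
    have : (0 : ℝ) < 4 ^ nn := by positivity
    linarith
  -- seeds
  set Sd := {β // β ∈ R₀} × Bool with hSd
  set k' : ℕ := Fintype.card Sd with hk'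
  have hk'K : k' ≤ X.K := by
    have h1 : k' = R₀.card * 2 := by
      simp only [hk', hSd, Fintype.card_prod, Fintype.card_coe, Fintype.card_bool]
    have h2 := Finset.card_le_card hR₀B
    rw [h1]
    refine le_trans ?_ hKbig
    nlinarith
  set E' := Fintype.equivFin Sd with hE'
  have hK1 : (1 : ℝ) ≤ X.K := by
    have : 1 ≤ X.K := by omega
    exact_mod_cast this
  set sh : Bool → ℝ := fun c => if c then 2 * p else -(6 * p) with hsh
  obtain ⟨t, ht, htZ⟩ := hX.univ k' hk'K (fun l => sg (E'.symm l).2)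
    (fun l => (E'.symm l).1.1 + sh (E'.symm l).2 * a₁)
    (fun l => by
      rw [hsg_abs]
      exact ⟨by rw [div_le_one (by linarith)]; exact hK1, le_refl _⟩)
    (fun l l' hll hs v u h => by
      have h1 : (E'.symm l).2 = (E'.symm l').2 := by
        cases h2 : (E'.symm l).2 <;> cases h3 : (E'.symm l').2 <;>
          simp only [h2, h3, hsg] at hs ⊢ <;> norm_num at hs
      have h2 : (E'.symm l).1.1 ≠ (E'.symm l').1.1 := by
        intro h3
        apply hll
        apply E'.symm.injective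
        exact Prod.ext (Subtype.ext h3) h1
      refine hind _ (E'.symm l).1.2 _ (E'.symm l').1.2 h2 ⟨v, u, ?_⟩
      rw [← h, h1]
      ring)
    t₁
  have hseed : ∀ x, (∀ l, sg (E'.symm l).2 * x + ((E'.symm l).1.1 + sh (E'.symm l).2 * a₁) ∈ X.Z) →
      ∀ β ∈ R₀, ∀ c : Bool, sg c * x + (β + sh c * a₁) ∈ X.Z := by
    intro x hx β hβ c
    have h1 := hx (E' (⟨β, hβ⟩, c))
    simpa only [Equiv.symm_apply_apply] using h1
  refine ⟨Ioo t₁ (t₁ + e X.K) ∩ ⋂ l, {x | sg (E'.symm l).2 * x +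
      ((E'.symm l).1.1 + sh (E'.symm l).2 * a₁) ∈ X.Z}, ?_, ⟨t, ht, ?_⟩, ?_⟩
  · refine isOpen_Ioo.inter (isOpen_iInter_of_finite fun l => ?_)
    exact hX.Zopen.preimage (by fun_prop)
  · rw [mem_iInter]
    exact htZ
  · rintro x ⟨hx, hxZ⟩ τ hτ n hn k hk
    rw [mem_iInter] at hxZ
    have hsd := hseed x hxZ
    set β : ℝ := ∑ j, (n j : ℝ) * b j + k * a₁ with hβ
    have hβB : β ∈ B := by
      refine Finset.mem_image.2 ⟨(n, k), ?_, rfl⟩
      rw [hI, Finset.mem_product, Fintype.mem_piFinset]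
      simp only [Finset.mem_Icc]
      exact ⟨fun j => abs_le.1 (hn j), abs_le.1 hk⟩
    obtain ⟨β₀, hβ₀, v, u, hvu⟩ := hcov β hβB
    obtain ⟨hv1, hv2⟩ := hext β hβB β₀ (hR₀B hβ₀) v u hvu
    rw [abs_le] at hv1
    have hv2' : |v.2| ≤ (X.K : ℤ) := hv2.trans (by omega)
    have hx' : x ∈ Icc t₁ (t₁ + 1 / 4 ^ nn) := ⟨hx.1.le, hx.2.le.trans (by linarith)⟩
    have hPp : (X.P : ℤ) = 8 * p := by exact_mod_cast hp
    have hTp : (X.T : ℤ) + 1 ≤ 2 * p := by exact_mod_cast hp1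
    have hT0 : (0 : ℤ) ≤ X.T := Int.natCast_nonneg _
    have hexcl : ∀ y : ℝ, 1 / (8 * 4 ^ nn) ≤ |y| → y ∉ Ioo 0 X.ε' := by
      intro y hy hy'
      rw [abs_of_pos hy'.1] at hy
      have h1 := hX.ε'e
      linarith [hy'.2]
    rcases Finset.mem_insert.1 hτ with rfl | hτ
    · refine ⟨?_, ?_⟩
      · refine seg_sum hX (hsd β₀ hβ₀ true) hv2' _ (fun l => v.1 - 2 * p + l) u ?_ ?_ ?_ ?_
        · intro l
          have h1 : β = β₀ + (Lf a₁ a₂ v + u) := by linarith
          rw [h1]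
          simp only [Lf, hsg, hsh]
          push_cast
          simp
          ring
        · intro l hl
          have : (l : ℤ) < X.P := by exact_mod_cast hl
          rw [abs_le]
          constructor <;> omega
        · intro a ha1 ha2
          refine ⟨(a - v.1 + 2 * p).toNat, ?_, ?_⟩
          · zify
            rw [Int.toNat_of_nonneg (by omega)]
            omega
          · rw [Int.toNat_of_nonneg (by omega)]
            ring
        · intro l l' h
          have h' : v.1 - 2 * p + l = v.1 - 2 * p + (l' : ℤ) := h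
          omega
      · intro l hl u'
        apply hexcl
        have h1 := hav β hβB l hl true x hx' (-u')
        simp only [hsg, if_true] at h1
        refine h1.trans (le_of_eq ?_)
        congr 1
        push_cast
        ring
    · rw [Finset.mem_singleton] at hτ
      subst hτ
      refine ⟨?_, ?_⟩
      · refine seg_sum hX (hsd β₀ hβ₀ false) hv2' _ (fun l => v.1 + 6 * p - l) u ?_ ?_ ?_ ?_
        · intro l
          have h1 : β = β₀ + (Lf a₁ a₂ v + u) := by linarith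
          rw [h1]
          simp only [Lf, hsg, hsh]
          push_cast
          simp
          ring
        · intro l hl
          have : (l : ℤ) < X.P := by exact_mod_cast hl
          rw [abs_le]
          constructor <;> omega
        · intro a ha1 ha2
          refine ⟨(v.1 + 6 * p - a).toNat, ?_, ?_⟩
          · zify
            rw [Int.toNat_of_nonneg (by omega)]
            omega
          · rw [Int.toNat_of_nonneg (by omega)]
            ring
        · intro l l' h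
          have h' : v.1 + 6 * p - l = v.1 + 6 * p - (l' : ℤ) := h
          omega
      · intro l hl u'
        apply hexcl
        have h1 := hav β hβB l hl false x hx' (-u')
        simp only [hsg, Bool.false_eq_true, if_false] at h1
        refine h1.trans (le_of_eq ?_)
        congr 1
        push_cast
        ring

/-- Main level: on a nonempty open set of base points every `α`-segment of the configuration
catches exactly one sink and no source, and the configuration avoids the higher levels. -/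
theorem main_level (a₁ a₂ : ℝ) (hα : QIndep a₁ a₂) (thr2 : ℝ → ℕ) (κ : ℕ → ℕ → ℕ) (e : ℕ → ℝ)
    (he1 : ∀ n, e n ≤ 1 / (8 * 4 ^ n)) (hκ : ∀ i P, 2 * (2 * P + 1) ^ (i + 1) * (P + 1) ≤ κ i P)
    (μ₀ : ℝ) (m : ℕ) (b : Fin m → ℝ) :
    ∃ M : ℕ, 1 ≤ M ∧ ∀ (i : ℕ), m ≤ i → ∀ (ε : ℝ) (θ : ℕ) (X : Lev),
      Good a₁ a₂ thr2 κ e μ₀ i ε θ X →
      ∃ U : Set ℝ, IsOpen U ∧ U.Nonempty ∧ ∀ x ∈ U, ∀ τ ∈ ({1, -1} : Finset ℤ),
        ∀ n : Fin m → ℤ, (∀ j, |n j| ≤ (X.P / M : ℕ)) → ∀ k : ℤ, |k| ≤ (X.P / M : ℕ) →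
        (∑ l ∈ Finset.range X.P,
          cob a₁ X.G ((τ : ℝ) * (x + l * a₁) + (∑ j, (n j : ℝ) * b j + k * a₁))) = -1 ∧
        ∀ l < X.P, ∀ u : ℤ,
          (τ : ℝ) * (x + l * a₁) + (∑ j, (n j : ℝ) * b j + k * a₁) + u ∉ Ioo 0 X.ε' :=
  main_level_of (fun n N hN s q hs t₀ lam hlam hslope => avoid_family n N hN s q hs t₀ lam hlam
    hslope) a₁ a₂ hα thr2 κ e he1 hκ μ₀ m b

end GB
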