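import Pool.Agent.Helper5.GB.St
import Pool.Agent.Helper52.CM.Grid

set_option autoImplicit false

open Set Filter Topology

namespace Pool.Agent.Helper75.GB

open Pool.Agent.Helper5.GB

theorem colour_cases {N : ℕ} {y : Fin 2 → ℕ} {i : Fin 2} {v : ℝ} {a : ZMod 2}
    (h : a = if y i = 0 then (0 : ZMod 2) else if y i = N then 1 else if v < 0 then 0 else 1)
    (h0 : y i = 0 → v ≤ 0) (hN : y i = N → 0 ≤ v) :
    (a = 0 ∧ v ≤ 0) ∨ (a = 1 ∧ 0 ≤ v) := by
  by_cases h1 : y i = 0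
  · rw [if_pos h1] at h
    exact Or.inl ⟨h, h0 h1⟩
  · rw [if_neg h1] at h
    by_cases h2 : y i = N
    · rw [if_pos h2] at h
      exact Or.inr ⟨h, hN h2⟩
    · rw [if_neg h2] at h
      by_cases h3 : v < 0
      · rw [if_pos h3] at h
        exact Or.inl ⟨h, h3.le⟩
      · rw [if_neg h3] at h
        exact Or.inr ⟨h, not_lt.1 h3⟩

theorem hMir : StMir := by
  intro p q r s f g hpq hrs hf hg hfb hgb
  by_contra hcon
  have hno : ∀ z ∈ Icc p q ×ˢ Icc r s, 0 < |f z| + |g z| := by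
    intro z hz
    by_contra h
    have h1 : |f z| + |g z| ≤ 0 := not_lt.1 h
    have h2 := abs_nonneg (f z)
    have h3 := abs_nonneg (g z)
    exact hcon ⟨z, hz, abs_eq_zero.1 (by linarith), abs_eq_zero.1 (by linarith)⟩
  have hcomp : IsCompact (Icc p q ×ˢ Icc r s) := isCompact_Icc.prod isCompact_Icc
  have hne : (Icc p q ×ˢ Icc r s).Nonempty :=
    ⟨(p, r), ⟨⟨le_refl _, hpq.le⟩, ⟨le_refl _, hrs.le⟩⟩⟩
  have hcont : ContinuousOn (fun z => |f z| + |g z|) (Icc p q ×ˢ Icc r s) := hf.abs.add hg.abs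
  obtain ⟨z0, hz0, hmin⟩ := hcomp.exists_isMinOn hne hcont
  have hpos := hno z0 hz0
  have hmin' : ∀ z ∈ Icc p q ×ˢ Icc r s, |f z0| + |g z0| ≤ |f z| + |g z| := fun z hz => hmin hz
  obtain ⟨μ, hμ⟩ : ∃ μ : ℝ, μ = (|f z0| + |g z0|) / 4 := ⟨_, rfl⟩
  have hμp : 0 < μ := by rw [hμ]; linarith
  have uf := hcomp.uniformContinuousOn_of_continuous hf
  have ug := hcomp.uniformContinuousOn_of_continuous hg
  rw [Metric.uniformContinuousOn_iff] at uf ug
  obtain ⟨e1, he1, uf⟩ := uf μ hμp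
  obtain ⟨e2, he2, ug⟩ := ug μ hμp
  obtain ⟨e, he, hle1, hle2⟩ : ∃ e : ℝ, 0 < e ∧ e ≤ e1 ∧ e ≤ e2 :=
    ⟨min e1 e2, lt_min he1 he2, min_le_left _ _, min_le_right _ _⟩
  obtain ⟨N, hN⟩ := exists_nat_gt ((q - p) / e + (s - r) / e)
  have hq0 : 0 < (q - p) / e := div_pos (by linarith) he
  have hs0 : 0 < (s - r) / e := div_pos (by linarith) he
  have hNp : (0 : ℝ) < N := by linarith
  have hqN : (q - p) / N < e := by
    rw [div_lt_iff₀ hNp]
    have : (q - p) / e < N := by linarith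
    rw [div_lt_iff₀ he] at this
    linarith
  have hsN : (s - r) / N < e := by
    rw [div_lt_iff₀ hNp]
    have : (s - r) / e < N := by linarith
    rw [div_lt_iff₀ he] at this
    linarith
  obtain ⟨P, hP⟩ : ∃ P : (Fin 2 → ℕ) → ℝ × ℝ,
      ∀ y, P y = (p + (q - p) / N * y 0, r + (s - r) / N * y 1) := ⟨_, fun _ => rfl⟩
  have hqN0 : 0 < (q - p) / N := div_pos (by linarith) hNp
  have hsN0 : 0 < (s - r) / N := div_pos (by linarith) hNp
  have hqNN : (q - p) / N * N = q - p := div_mul_cancel₀ _ hNp.ne'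
  have hsNN : (s - r) / N * N = s - r := div_mul_cancel₀ _ hNp.ne'
  have hPR : ∀ y : Fin 2 → ℕ, y 0 ≤ N → y 1 ≤ N → P y ∈ Icc p q ×ˢ Icc r s := by
    intro y h0 h1
    rw [hP y]
    have h0' : ((y 0 : ℕ) : ℝ) ≤ N := by exact_mod_cast h0
    have h1' : ((y 1 : ℕ) : ℝ) ≤ N := by exact_mod_cast h1
    have h0p : (0 : ℝ) ≤ (y 0 : ℕ) := Nat.cast_nonneg _
    have h1p : (0 : ℝ) ≤ (y 1 : ℕ) := Nat.cast_nonneg _
    have a1 := mul_le_mul_of_nonneg_left h0' hqN0.le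
    have a2 := mul_nonneg hqN0.le h0p
    have b1 := mul_le_mul_of_nonneg_left h1' hsN0.le
    have b2 := mul_nonneg hsN0.le h1p
    refine ⟨⟨?_, ?_⟩, ⟨?_, ?_⟩⟩
    · show p ≤ p + (q - p) / N * ((y 0 : ℕ) : ℝ)
      linarith
    · show p + (q - p) / N * ((y 0 : ℕ) : ℝ) ≤ q
      linarith
    · show r ≤ r + (s - r) / N * ((y 1 : ℕ) : ℝ)
      linarith
    · show r + (s - r) / N * ((y 1 : ℕ) : ℝ) ≤ s
      linarith
  -- boundary values of the two functions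
  have hf0 : ∀ y : Fin 2 → ℕ, y 1 ≤ N → y 0 = 0 → f (P y) ≤ 0 := by
    intro y h1 h0
    have hr := hPR y (by rw [h0]; exact Nat.zero_le _) h1
    have h2 : P y = (p, (P y).2) := by
      rw [hP y, h0]; simp
    rw [h2]
    exact (hfb _ hr.2).1
  have hfN : ∀ y : Fin 2 → ℕ, y 1 ≤ N → y 0 = N → 0 ≤ f (P y) := by
    intro y h1 h0
    have hr := hPR y h0.le h1
    have h2 : P y = (q, (P y).2) := by
      rw [hP y, h0]
      refine Prod.ext ?_ rfl
      show p + (q - p) / N * (N : ℝ) = q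
      linarith
    rw [h2]
    exact (hfb _ hr.2).2
  have hg0 : ∀ y : Fin 2 → ℕ, y 0 ≤ N → y 1 = 0 → g (P y) ≤ 0 := by
    intro y h1 h0
    have hr := hPR y h1 (by rw [h0]; exact Nat.zero_le _)
    have h2 : P y = ((P y).1, r) := by
      rw [hP y, h0]; simp
    rw [h2]
    exact (hgb _ hr.1).1
  have hgN : ∀ y : Fin 2 → ℕ, y 0 ≤ N → y 1 = N → 0 ≤ g (P y) := by
    intro y h1 h0
    have hr := hPR y h1 h0.le
    have h2 : P y = ((P y).1, s) := by
      rw [hP y, h0]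
      refine Prod.ext rfl ?_
      show r + (s - r) / N * (N : ℝ) = s
      linarith
    rw [h2]
    exact (hgb _ hr.1).2
  obtain ⟨G, hG0, hG1⟩ : ∃ G : Fin 2 → ℝ × ℝ → ℝ, G 0 = f ∧ G 1 = g := ⟨![f, g], rfl, rfl⟩
  classical
  obtain ⟨F, hF⟩ : ∃ F : Fin 2 → (Fin 2 → ℕ) → ZMod 2, ∀ i y, F i y =
      if y i = 0 then (0 : ZMod 2) else if y i = N then 1 else if G i (P y) < 0 then 0 else 1 :=
    ⟨fun i y => if y i = 0 then (0 : ZMod 2) else if y i = N then 1 else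
      if G i (P y) < 0 then 0 else 1, fun _ _ => rfl⟩
  have hNne : N ≠ 0 := by
    rintro rfl
    simp at hNp
  obtain ⟨x, hxN, hx⟩ := Pool.Agent.Helper52.CM.Grid.exists_cube (n := 2) N F (by
    intro i y
    constructor
    · intro h
      rw [hF i y, if_pos h]
    · intro h
      have h0 : ¬ y i = 0 := by rw [h]; exact hNne
      rw [hF i y, if_neg h0, if_pos h])
  have hcell : ∀ y : Fin 2 → ℕ, (∀ j, x j ≤ y j ∧ y j ≤ x j + 1) → y 0 ≤ N ∧ y 1 ≤ N := by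
    intro y hy
    exact ⟨(hy 0).2.trans (hxN 0), (hy 1).2.trans (hxN 1)⟩
  have hdist : ∀ y : Fin 2 → ℕ, (∀ j, x j ≤ y j ∧ y j ≤ x j + 1) → dist (P x) (P y) < e := by
    intro y hy
    rw [hP x, hP y, Prod.dist_eq]
    have hj : ∀ j : Fin 2, |((x j : ℕ) : ℝ) - ((y j : ℕ) : ℝ)| ≤ 1 := by
      intro j
      have h1 : ((x j : ℕ) : ℝ) ≤ ((y j : ℕ) : ℝ) := by exact_mod_cast (hy j).1
      have h2 : ((y j : ℕ) : ℝ) ≤ ((x j : ℕ) : ℝ) + 1 := by exact_mod_cast (hy j).2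
      rw [abs_le]
      constructor <;> linarith
    have k1 : dist (p + (q - p) / N * ((x 0 : ℕ) : ℝ)) (p + (q - p) / N * ((y 0 : ℕ) : ℝ)) < e := by
      rw [Real.dist_eq]
      have : p + (q - p) / N * ((x 0 : ℕ) : ℝ) - (p + (q - p) / N * ((y 0 : ℕ) : ℝ))
          = (q - p) / N * (((x 0 : ℕ) : ℝ) - ((y 0 : ℕ) : ℝ)) := by ring
      rw [this, abs_mul, abs_of_pos hqN0]
      have := mul_le_mul_of_nonneg_left (hj 0) hqN0.le
      linarith
    have k2 : dist (r + (s - r) / N * ((x 1 : ℕ) : ℝ)) (r + (s - r) / N * ((y 1 : ℕ) : ℝ)) < e := by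
      rw [Real.dist_eq]
      have : r + (s - r) / N * ((x 1 : ℕ) : ℝ) - (r + (s - r) / N * ((y 1 : ℕ) : ℝ))
          = (s - r) / N * (((x 1 : ℕ) : ℝ) - ((y 1 : ℕ) : ℝ)) := by ring
      rw [this, abs_mul, abs_of_pos hsN0]
      have := mul_le_mul_of_nonneg_left (hj 1) hsN0.le
      linarith
    exact max_lt k1 k2
  have hxx : ∀ j, x j ≤ x j ∧ x j ≤ x j + 1 := fun j => ⟨le_refl _, Nat.le_succ _⟩
  have hPx := hPR x (hcell x hxx).1 (hcell x hxx).2
  have key : ∀ i : Fin 2, |G i (P x)| < μ := by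
    intro i
    have hb0 : ∀ y : Fin 2 → ℕ, (∀ j, x j ≤ y j ∧ y j ≤ x j + 1) → y i = 0 → G i (P y) ≤ 0 := by
      intro y hy h
      have hc := hcell y hy
      fin_cases i
      · show G 0 (P y) ≤ 0
        rw [hG0]; exact hf0 y hc.2 h
      · show G 1 (P y) ≤ 0
        rw [hG1]; exact hg0 y hc.1 h
    have hbN : ∀ y : Fin 2 → ℕ, (∀ j, x j ≤ y j ∧ y j ≤ x j + 1) → y i = N → 0 ≤ G i (P y) := by
      intro y hy h
      have hc := hcell y hy
      fin_cases i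
      · show 0 ≤ G 0 (P y)
        rw [hG0]; exact hfN y hc.2 h
      · show 0 ≤ G 1 (P y)
        rw [hG1]; exact hgN y hc.1 h
    have hclose : ∀ y : Fin 2 → ℕ, (∀ j, x j ≤ y j ∧ y j ≤ x j + 1) →
        |G i (P x) - G i (P y)| < μ := by
      intro y hy
      have hc := hcell y hy
      have hd := hdist y hy
      have hPy := hPR y hc.1 hc.2
      rw [← Real.dist_eq]
      fin_cases i
      · show dist (G 0 (P x)) (G 0 (P y)) < μ
        rw [hG0]
        exact uf _ hPx _ hPy (hd.trans_le hle1)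
      · show dist (G 1 (P x)) (G 1 (P y)) < μ
        rw [hG1]
        exact ug _ hPx _ hPy (hd.trans_le hle2)
    obtain ⟨y, y', hy, hy', hne⟩ := hx i
    have c1 := colour_cases (hF i y) (hb0 y hy) (hbN y hy)
    have c2 := colour_cases (hF i y') (hb0 y' hy') (hbN y' hy')
    have d1 := abs_lt.1 (hclose y hy)
    have d2 := abs_lt.1 (hclose y' hy')
    rw [abs_lt]
    rcases c1 with ⟨a1, b1⟩ | ⟨a1, b1⟩
    · rcases c2 with ⟨a2, b2⟩ | ⟨a2, b2⟩
      · exact absurd (a1.trans a2.symm) hne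
      · constructor <;> linarith [d1.1, d1.2, d2.1, d2.2]
    · rcases c2 with ⟨a2, b2⟩ | ⟨a2, b2⟩
      · constructor <;> linarith [d1.1, d1.2, d2.1, d2.2]
      · exact absurd (a1.trans a2.symm) hne
  have kf := key 0
  have kg := key 1
  rw [hG0] at kf
  rw [hG1] at kg
  have := hmin' _ hPx
  linarith

end Pool.Agent.Helper75.GB
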